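import Pool.Agent.H26.T3.Minor

set_option autoImplicit false

/-!
Comparison of the two models.
-/

namespace Pool.Agent.H26.T3

open PowerSeries

lemma P_append_zero (sw : Bool) (W : List ℕ) : ∀ (Γ : List ℕ) (κ : ℕ),
    P sw κ (Γ ++ 0 :: W) = P sw κ (Γ ++ W) := by
  intro Γ
  induction Γ with
  | nil => intro κ; simp [P_zero_cons]
  | cons c Γ ih =>
    intro κ
    rw [List.cons_append, List.cons_append, peel, peel sw c κ (Γ ++ W), ih]
    congr 1
    apply Finset.sum_congr rfl
    intro j _
    rw [ih]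

lemma tele (b : ℕ) (F : ℕ → PowerSeries ℤ) :
    ∑ c ∈ Finset.range b, F c - ∑ c ∈ Finset.range b, F (c + 2) = F 0 + F 1 - F b - F (b + 1) := by
  have h : ∑ c ∈ Finset.range (b + 2), F c = ∑ c ∈ Finset.range b, F (c + 2) + F 1 + F 0 := by
    rw [Finset.sum_range_succ', Finset.sum_range_succ']
  rw [Finset.sum_range_succ, Finset.sum_range_succ] at h
  linear_combination h

lemma head_diff (b : ℕ) (Γ : List ℕ) :
    Pos (((List.range b).map (fun y => P true 1 (Γ ++ [b - 1 - y, y + 2]))).sum -
      ((List.range b).map (fun y => P true 1 (Γ ++ [y + 2, b - 1 - y]))).sum) := by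
  rw [list_range_sum, list_range_sum]
  have h1 : ∑ y ∈ Finset.range b, P true 1 (Γ ++ [b - 1 - y, y + 2]) =
      ∑ c ∈ Finset.range b, P true 1 (Γ ++ [c, b + 1 - c]) := by
    rw [← Finset.sum_range_reflect (fun c => P true 1 (Γ ++ [c, b + 1 - c]))]
    apply Finset.sum_congr rfl
    intro y hy
    rw [Finset.mem_range] at hy
    have : b + 1 - (b - 1 - y) = y + 2 := by omega
    rw [this]
  have h2 : ∑ y ∈ Finset.range b, P true 1 (Γ ++ [y + 2, b - 1 - y]) =
      ∑ c ∈ Finset.range b, P true 1 (Γ ++ [c + 2, b + 1 - (c + 2)]) := by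
    apply Finset.sum_congr rfl
    intro y hy
    rw [Finset.mem_range] at hy
    have : b + 1 - (y + 2) = b - 1 - y := by omega
    rw [this]
  rw [h1, h2, tele b (fun c => P true 1 (Γ ++ [c, b + 1 - c]))]
  have h3 : b + 1 - 0 = b + 1 := by omega
  have h4 : b + 1 - 1 = b := by omega
  have h5 : b + 1 - b = 1 := by omega
  have h6 : b + 1 - (b + 1) = 0 := by omega
  simp only [h3, h4, h5, h6]
  have h7 : P true 1 (Γ ++ [0, b + 1]) = P true 1 (Γ ++ [b + 1]) := P_append_zero true [b + 1] Γ 1
  have h8 : P true 1 (Γ ++ [b + 1, 0]) = P true 1 (Γ ++ [b + 1]) := by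
    have := P_append_zero true [] (Γ ++ [b + 1]) 1
    simpa using this
  rw [h7, h8]
  have h9 := swap_pos b [] Γ 1
  have e : P true 1 (Γ ++ [b + 1]) + P true 1 (Γ ++ [1, b]) - P true 1 (Γ ++ [b, 1]) -
      P true 1 (Γ ++ [b + 1]) = P true 1 (Γ ++ [1, b]) - P true 1 (Γ ++ [b, 1]) := by ring
  rw [e]
  exact h9

lemma cmp_splits : ∀ (W Γ : List ℕ),
    Pos (((wsplits true W).map (fun mp => P true 1 (Γ ++ mp.1) * P true 1 mp.2)).sum -
      ((wsplits false W).map (fun mp => P true 1 (Γ ++ mp.1) * P true 1 mp.2)).sum) := by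
  intro W
  induction W with
  | nil => intro Γ; simpa [wsplits] using pos_zero
  | cons b W ih =>
    intro Γ
    simp only [wsplits, List.map_append, List.sum_append, List.map_map]
    have h1 : ((List.range b).map ((fun mp : List ℕ × List ℕ =>
        P true 1 (Γ ++ mp.1) * P true 1 mp.2) ∘
        fun y => ((if true then [b - 1 - y, y + 2] else [y + 2, b - 1 - y]), W))).sum =
        ((List.range b).map (fun y => P true 1 (Γ ++ [b - 1 - y, y + 2]))).sum
          * P true 1 W := by
      rw [← List.sum_map_mul_right]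
      rfl
    have h2 : ((List.range b).map ((fun mp : List ℕ × List ℕ =>
        P true 1 (Γ ++ mp.1) * P true 1 mp.2) ∘
        fun y => ((if false = true then [b - 1 - y, y + 2] else [y + 2, b - 1 - y]), W))).sum =
        ((List.range b).map (fun y => P true 1 (Γ ++ [y + 2, b - 1 - y]))).sum
          * P true 1 W := by
      rw [← List.sum_map_mul_right]
      rfl
    have h3 : ∀ sw, ((wsplits sw W).map ((fun mp : List ℕ × List ℕ =>
        P true 1 (Γ ++ mp.1) * P true 1 mp.2) ∘ fun mp => (b :: mp.1, mp.2))).sum =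
        ((wsplits sw W).map (fun mp => P true 1 ((Γ ++ [b]) ++ mp.1) * P true 1 mp.2)).sum := by
      intro sw
      congr 2
      funext mp
      simp
    have h4 := head_diff b Γ
    have h5 := ih (Γ ++ [b])
    simp only [if_true] at h1
    simp only [if_true]
    rw [h1, h2, h3, h3]
    have e : ∀ a b c d w : PowerSeries ℤ, a * w + c - (b * w + d) = (a - b) * w + (c - d) := by
      intro a b c d w; ring
    rw [e]
    exact (h4.mul (pos_P _ _ _)).add h5

theorem cmp_nn : ∀ (n : ℕ) (W : List ℕ), NN n (P true 1 W - P false 1 W) := by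
  intro n
  induction n with
  | zero => intro W m hm; omega
  | succ n ih =>
    intro W
    have e : P true 1 W - P false 1 W = X *
        ((((wsplits true W).map (fun mp => P true 1 ([] ++ mp.1) * P true 1 mp.2)).sum -
      ((wsplits false W).map (fun mp => P true 1 ([] ++ mp.1) * P true 1 mp.2)).sum) +
      ((wsplits false W).map (fun mp => P true 1 mp.1 * P true 1 mp.2 -
        P false 1 mp.1 * P false 1 mp.2)).sum) := by
      rw [sum_map_sub', P_one true, P_one false]
      simp only [List.nil_append]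
      ring
    rw [e]
    apply NN.X_mul
    apply ((cmp_splits W []).nn n).add
    apply NN.list_sum
    intro mp _
    apply NN.congr (f := (P true 1 mp.1 - P false 1 mp.1) * P true 1 mp.2 +
      P false 1 mp.1 * (P true 1 mp.2 - P false 1 mp.2))
    · apply NN.add
      · exact (ih _).mul ((pos_P _ _ _).nn n)
      · exact ((pos_P _ _ _).nn n).mul (ih _)
    · ring

theorem cmp_pos (W : List ℕ) : Pos (P true 1 W - P false 1 W) := pos_of_nn fun n => cmp_nn n W

lemma exists_split (sw : Bool) : ∀ (W : List ℕ), (∃ b ∈ W, 0 < b) →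
    ∃ mp ∈ wsplits sw W, ∃ c ∈ mp.1, 0 < c := by
  intro W
  induction W with
  | nil => rintro ⟨b, hb, _⟩; simp at hb
  | cons a W ih =>
    rintro ⟨b, hb, hb0⟩
    by_cases ha : 0 < a
    · refine ⟨((if sw then [a - 1 - 0, 0 + 2] else [0 + 2, a - 1 - 0]), W), ?_, 2, ?_, by omega⟩
      · rw [wsplits, List.mem_append]
        left
        rw [List.mem_map]
        exact ⟨0, by simpa using ha, rfl⟩
      · cases sw <;> simp
    · have hb' : b ∈ W := by
        rcases List.mem_cons.1 hb with h | h
        · omega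
        · exact h
      obtain ⟨mp, hmp, c, hc, hc0⟩ := ih ⟨b, hb', hb0⟩
      refine ⟨(a :: mp.1, mp.2), ?_, c, List.mem_cons_of_mem _ hc, hc0⟩
      rw [wsplits, List.mem_append]
      right
      rw [List.mem_map]
      exact ⟨mp, hmp, rfl⟩

lemma coeff_ge_one (sw : Bool) : ∀ (n : ℕ) (W : List ℕ), (∃ b ∈ W, 0 < b) →
    1 ≤ coeff n (P sw 1 W) := by
  intro n
  induction n with
  | zero => intro W _; rw [coeff_P]; simp [pc]
  | succ n ih =>
    intro W hW
    obtain ⟨mp, hmp, hc⟩ := exists_split sw W hW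
    rw [P_one, map_add, coeff_succ_X_mul, map_list_sum, List.map_map]
    have h1 : (0 : ℤ) ≤ coeff (n + 1) (1 : PowerSeries ℤ) := pos_one _
    have h2 : coeff n (P sw 1 mp.1 * P sw 1 mp.2) ≤
        ((wsplits sw W).map ((coeff n) ∘ fun mp => P sw 1 mp.1 * P sw 1 mp.2)).sum := by
      apply List.single_le_sum
      · intro x hx
        rw [List.mem_map] at hx
        obtain ⟨mq, _, rfl⟩ := hx
        exact ((pos_P _ _ _).mul (pos_P _ _ _)) n
      · rw [List.mem_map]
        exact ⟨mp, hmp, rfl⟩
    have h3 : 1 ≤ coeff n (P sw 1 mp.1 * P sw 1 mp.2) := by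
      rw [coeff_mul]
      have h4 : coeff n (P sw 1 mp.1) * coeff 0 (P sw 1 mp.2) ≤
          ∑ p ∈ Finset.HasAntidiagonal.antidiagonal n, coeff p.1 (P sw 1 mp.1) * coeff p.2 (P sw 1 mp.2) := by
        apply Finset.single_le_sum
          (f := fun p : ℕ × ℕ => coeff p.1 (P sw 1 mp.1) * coeff p.2 (P sw 1 mp.2))
          (a := (n, 0))
        · intro p _
          exact mul_nonneg (pos_P _ _ _ _) (pos_P _ _ _ _)
        · rw [Finset.HasAntidiagonal.mem_antidiagonal]; simp
      have h5 : coeff 0 (P sw 1 mp.2) = 1 := by rw [coeff_P]; simp [pc]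
      rw [h5, mul_one] at h4
      exact (ih _ hc).trans h4
    linarith

end Pool.Agent.H26.T3
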