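import Mathlib

set_option autoImplicit false

/-!
Words of natural numbers and their splittings (growth model of three passes of the
stack sort operator, `sw = false`, and of the revstack sort operator, `sw = true`).
-/

namespace Pool.Agent.H26.T3

/-- The splittings `(W⁻, W⁺)` of a word `W` at a unit of a letter. -/
def wsplits (sw : Bool) : List ℕ → List (List ℕ × List ℕ)
  | [] => []
  | b :: W => (List.range b).map
      (fun y => ((if sw then [b - 1 - y, y + 2] else [y + 2, b - 1 - y]), W)) ++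
      (wsplits sw W).map (fun mp => (b :: mp.1, mp.2))

/-- The numbers `pc n κ W`: coefficient of `z^n` in the series `P κ W`. -/
def pc (sw : Bool) : ℕ → ℕ → List ℕ → ℕ
  | 0, _, _ => 1
  | _ + 1, 0, _ => 0
  | n + 1, κ + 1, W => pc sw (n + 1) κ W +
      ((wsplits sw W).map (fun mp =>
        ∑ i : Fin (n + 1), pc sw i.1 (κ + 1) mp.1 * pc sw (n - i.1) 1 mp.2)).sum
termination_by n κ _ => (n, κ)

open PowerSeries

/-- The series `P κ W`. -/
noncomputable def P (sw : Bool) (κ : ℕ) (W : List ℕ) : PowerSeries ℤ :=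
  PowerSeries.mk fun n => (pc sw n κ W : ℤ)

lemma coeff_P (sw : Bool) (κ n : ℕ) (W : List ℕ) :
    coeff n (P sw κ W) = (pc sw n κ W : ℤ) := by
  simp [P]

lemma P_zero (sw : Bool) (W : List ℕ) : P sw 0 W = 1 := by
  ext n
  rw [coeff_P]
  cases n with
  | zero => simp [pc]
  | succ n => simp [pc, coeff_one]

lemma P_succ (sw : Bool) (κ : ℕ) (W : List ℕ) :
    P sw (κ + 1) W = P sw κ W +
      X * ((wsplits sw W).map (fun mp => P sw (κ + 1) mp.1 * P sw 1 mp.2)).sum := by
  ext n
  cases n with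
  | zero =>
    rw [map_add, coeff_zero_X_mul, coeff_P, coeff_P]
    simp [pc]
  | succ n =>
    rw [map_add, coeff_succ_X_mul, coeff_P, coeff_P, map_list_sum, List.map_map]
    conv_lhs => rw [pc]
    push_cast
    congr 1
    rw [List.map_map]
    congr 1
    apply List.map_congr_left
    intro mp _
    simp only [Function.comp_apply]
    rw [coeff_mul, Finset.Nat.sum_antidiagonal_eq_sum_range_succ_mk, Finset.sum_range]
    push_cast
    apply Finset.sum_congr rfl
    intro i _
    rw [coeff_P, coeff_P]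

lemma P_one (sw : Bool) (W : List ℕ) :
    P sw 1 W = 1 + X * ((wsplits sw W).map (fun mp => P sw 1 mp.1 * P sw 1 mp.2)).sum := by
  rw [P_succ, P_zero]

lemma P_nil (sw : Bool) (κ : ℕ) : P sw κ [] = 1 := by
  induction κ with
  | zero => exact P_zero sw []
  | succ κ ih => rw [P_succ, ih]; simp [wsplits]

/-- Coefficients below `n` are nonnegative. -/
def NN (n : ℕ) (f : PowerSeries ℤ) : Prop := ∀ m < n, 0 ≤ coeff m f

/-- All coefficients are nonnegative. -/
def Pos (f : PowerSeries ℤ) : Prop := ∀ m, 0 ≤ coeff m f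

lemma Pos.nn {f : PowerSeries ℤ} (h : Pos f) (n : ℕ) : NN n f := fun m _ => h m

lemma pos_of_nn {f : PowerSeries ℤ} (h : ∀ n, NN n f) : Pos f := fun m => h (m + 1) m (by omega)

lemma NN.add {n : ℕ} {f g : PowerSeries ℤ} (hf : NN n f) (hg : NN n g) : NN n (f + g) := by
  intro m hm
  rw [map_add]
  exact add_nonneg (hf m hm) (hg m hm)

lemma NN.mul {n : ℕ} {f g : PowerSeries ℤ} (hf : NN n f) (hg : NN n g) : NN n (f * g) := by
  intro m hm
  rw [coeff_mul]
  apply Finset.sum_nonneg
  intro p hp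
  have := Finset.HasAntidiagonal.mem_antidiagonal.1 hp
  exact mul_nonneg (hf _ (by omega)) (hg _ (by omega))

lemma NN.X_mul {n : ℕ} {f : PowerSeries ℤ} (hf : NN n f) : NN (n + 1) (X * f) := by
  intro m hm
  cases m with
  | zero => simp
  | succ m => rw [coeff_succ_X_mul]; exact hf m (by omega)

lemma NN.sum {n : ℕ} {ι : Type*} (s : Finset ι) (f : ι → PowerSeries ℤ)
    (h : ∀ i ∈ s, NN n (f i)) : NN n (∑ i ∈ s, f i) := by
  intro m hm
  rw [map_sum]
  exact Finset.sum_nonneg (fun i hi => h i hi m hm)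

lemma NN.list_sum {n : ℕ} {α : Type*} (l : List α) (f : α → PowerSeries ℤ)
    (h : ∀ i ∈ l, NN n (f i)) : NN n ((l.map f).sum) := by
  induction l with
  | nil => intro m _; simp
  | cons a l ih =>
    rw [List.map_cons, List.sum_cons]
    exact (h a (by simp)).add (ih (fun i hi => h i (by simp [hi])))

lemma Pos.add {f g : PowerSeries ℤ} (hf : Pos f) (hg : Pos g) : Pos (f + g) :=
  pos_of_nn fun n => (hf.nn n).add (hg.nn n)

lemma Pos.mul {f g : PowerSeries ℤ} (hf : Pos f) (hg : Pos g) : Pos (f * g) :=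
  pos_of_nn fun n => (hf.nn n).mul (hg.nn n)

lemma Pos.X_mul {f : PowerSeries ℤ} (hf : Pos f) : Pos (X * f) := by
  intro m
  cases m with
  | zero => simp
  | succ m => rw [coeff_succ_X_mul]; exact hf m

lemma Pos.sum {ι : Type*} (s : Finset ι) (f : ι → PowerSeries ℤ)
    (h : ∀ i ∈ s, Pos (f i)) : Pos (∑ i ∈ s, f i) :=
  pos_of_nn fun n => NN.sum s f fun i hi => (h i hi).nn n

lemma Pos.list_sum {α : Type*} (l : List α) (f : α → PowerSeries ℤ)
    (h : ∀ i ∈ l, Pos (f i)) : Pos ((l.map f).sum) :=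
  pos_of_nn fun n => NN.list_sum l f fun i hi => (h i hi).nn n

lemma pos_P (sw : Bool) (κ : ℕ) (W : List ℕ) : Pos (P sw κ W) := by
  intro m
  rw [coeff_P]
  positivity

lemma pos_one : Pos (1 : PowerSeries ℤ) := by
  rw [← P_zero true []]
  exact pos_P _ _ _

lemma pos_zero : Pos (0 : PowerSeries ℤ) := by
  intro m
  simp

end Pool.Agent.H26.T3
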