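import Pool.Agent.H19.StackSort.Basic

set_option autoImplicit false

/-!
Inserting a new smallest letter into a word: fibre sizes of the gap map of the stack
sort operator.
-/

namespace Pool.Agent.H26.T3

open Pool.Agent.H19.StackSort

/-- Insert `x` at position `p` of `w`. -/
def ins (x p : ℕ) (w : List ℕ) : List ℕ := w.take p ++ x :: w.drop p

/-- Overlap the last entry of `A` with the first entry of `B`. -/
def ov (A B : List ℕ) : List ℕ := A.dropLast ++ (A.getLastD 0 + B.headD 0) :: B.tail

/-- The sizes of the fibres of the gap map of the stack sort operator at `w`. -/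
def fib (w : List ℕ) : List ℕ :=
  if h : w = [] then [1] else ov (fib (leftPart w)) (fib (rightPart w)) ++ [0]
termination_by w.length
decreasing_by
  · exact leftPart_length w h
  · exact rightPart_length w h

lemma ins_zero (x : ℕ) (w : List ℕ) : ins x 0 w = x :: w := by simp [ins]

lemma ins_left (x p : ℕ) (L T : List ℕ) (h : p ≤ L.length) :
    ins x p (L ++ T) = ins x p L ++ T := by
  unfold ins
  rw [List.take_append_of_le_length h, List.drop_append_of_le_length h]
  simp

lemma ins_right (x p : ℕ) (L T : List ℕ) :
    ins x (L.length + p) (L ++ T) = L ++ ins x p T := by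
  unfold ins
  rw [List.take_length_add_append, List.drop_length_add_append]
  simp

lemma ins_right' (x p : ℕ) (L R : List ℕ) (m : ℕ) :
    ins x (L.length + 1 + p) (L ++ m :: R) = L ++ m :: ins x p R := by
  rw [add_assoc, ins_right]
  simp [ins, add_comm 1 p]

lemma ins_length (x p : ℕ) (w : List ℕ) : (ins x p w).length = w.length + 1 := by
  unfold ins
  simp only [List.length_append, List.length_cons, List.length_take, List.length_drop]
  omega

lemma ins_perm (x p : ℕ) (w : List ℕ) : (ins x p w).Perm (x :: w) := by
  unfold ins
  calc (w.take p ++ x :: w.drop p).Perm (x :: (w.take p ++ w.drop p)) := List.perm_middle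
    _ |>.Perm (x :: w) := by rw [List.take_append_drop]

lemma ins_reverse (x p : ℕ) (w : List ℕ) (h : p ≤ w.length) :
    (ins x p w).reverse = ins x (w.length - p) w.reverse := by
  unfold ins
  rw [List.reverse_append, List.reverse_cons, List.append_assoc, List.singleton_append,
    List.take_reverse, List.drop_reverse]
  have : w.length - (w.length - p) = p := by omega
  rw [this]

lemma fib_nil : fib [] = [1] := by rw [fib]; simp

lemma fib_split (L R : List ℕ) (m : ℕ) (hL : ∀ x ∈ L, x < m) (hR : ∀ x ∈ R, x < m) :
    fib (L ++ m :: R) = ov (fib L) (fib R) ++ [0] := by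
  rw [fib, dif_neg (by simp), leftPart_split L R m hL hR, rightPart_split L R m hL hR]

lemma ov_eq (A B : List ℕ) (a b : ℕ) : ov (A ++ [a]) (b :: B) = A ++ (a + b) :: B := by
  simp [ov]

/-- Basic facts on `fib`: it is nonempty, of length and sum `|w| + 1`. -/
lemma fib_basic : ∀ w : List ℕ, w.Nodup →
    (fib w).length = w.length + 1 ∧ (fib w).sum = w.length + 1 := by
  apply nodup_induction
  · rw [fib_nil]; simp
  · intro L R m _ hL hR ihL ihR
    rw [fib_split L R m hL hR]
    obtain ⟨A, a, hA⟩ : ∃ A a, fib L = A ++ [a] := by
      have hne : fib L ≠ [] := by
        intro h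
        rw [h] at ihL
        simp at ihL
      exact ⟨(fib L).dropLast, (fib L).getLast hne, (List.dropLast_append_getLast hne).symm⟩
    obtain ⟨b, B, hB⟩ : ∃ b B, fib R = b :: B := by
      cases hR : fib R with
      | nil => rw [hR] at ihR; simp at ihR
      | cons b B => exact ⟨b, B, rfl⟩
    rw [hA, hB, ov_eq]
    rw [hA] at ihL
    rw [hB] at ihR
    simp only [List.length_append, List.length_cons, List.length_nil, List.sum_append,
      List.sum_cons, List.sum_nil] at *
    omega

lemma fib_left (w : List ℕ) (hw : w.Nodup) : ∃ A a, fib w = A ++ [a] := by
  have hne : fib w ≠ [] := by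
    intro h
    have := (fib_basic w hw).1
    rw [h] at this
    simp at this
  exact ⟨(fib w).dropLast, (fib w).getLast hne, (List.dropLast_append_getLast hne).symm⟩

lemma fib_right (w : List ℕ) (hw : w.Nodup) : ∃ b B, fib w = b :: B := by
  cases h : fib w with
  | nil =>
    have := (fib_basic w hw).1
    rw [h] at this
    simp at this
  | cons b B => exact ⟨b, B, rfl⟩

lemma stackSort_length (w : List ℕ) (hw : w.Nodup) : (stackSort w).length = w.length :=
  (stackSort_perm w hw).length_eq

/-- The key lemma: insertion of a new smallest letter. -/
theorem key (x : ℕ) : ∀ w : List ℕ, w.Nodup → (∀ y ∈ w, x < y) →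
    ∀ (A : List ℕ) (b : ℕ) (C : List ℕ), fib w = A ++ b :: C → ∀ y < b,
    fib (ins x (A.sum + y) w) = A ++ (y + 2) :: (b - 1 - y) :: C ∧
    stackSort (ins x (A.sum + y) w) = ins x A.length (stackSort w) := by
  apply nodup_induction
  · intro _ A b C h y hy
    rw [fib_nil] at h
    have hA : A = [] := by
      cases A with
      | nil => rfl
      | cons a A => simp at h
    subst hA
    simp only [List.nil_append, List.cons.injEq] at h
    obtain ⟨rfl, hC⟩ := h
    subst hC
    have hy0 : y = 0 := by omega
    subst hy0
    have e : ins x (List.sum [] + 0) [] = [] ++ x :: [] := by simp [ins]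
    rw [e, fib_split [] [] x (by simp) (by simp), stackSort_split [] [] x (by simp) (by simp),
      fib_nil, stackSort_nil]
    simp [ov, ins]
  · intro L R m hnd hL hR ihL ihR hx A b C h y hy
    have hLn : L.Nodup := (List.nodup_append.1 hnd).1
    have hRn : R.Nodup := (List.nodup_cons.1 (List.nodup_append.1 hnd).2.1).2
    have hxm : x < m := hx m (by simp)
    have hxL : ∀ y ∈ L, x < y := fun y hy => hx y (by simp [hy])
    have hxR : ∀ y ∈ R, x < y := fun y hy => hx y (by simp [hy])
    obtain ⟨LA, la, hLA⟩ := fib_left L hLn
    obtain ⟨rb, RB, hRB⟩ := fib_right R hRn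
    have bL := fib_basic L hLn
    have bR := fib_basic R hRn
    rw [hLA] at bL
    rw [hRB] at bR
    simp only [List.length_append, List.length_cons, List.length_nil, List.sum_append,
      List.sum_cons, List.sum_nil] at bL bR
    rw [fib_split L R m hL hR, hLA, hRB, ov_eq] at h
    have hinsL : ∀ p, ∀ z ∈ ins x p L, z < m := by
      intro p z hz
      have := (ins_perm x p L).mem_iff.1 hz
      rcases List.mem_cons.1 this with h | h
      · rw [h]; exact hxm
      · exact hL z h
    have hinsR : ∀ p, ∀ z ∈ ins x p R, z < m := by
      intro p z hz
      have := (ins_perm x p R).mem_iff.1 hz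
      rcases List.mem_cons.1 this with h | h
      · rw [h]; exact hxm
      · exact hR z h
    have lenSL := stackSort_length L hLn
    have lenSR := stackSort_length R hRn
    rcases lt_trichotomy A.length LA.length with hlt | heq | hgt
    · -- in the left part
      obtain ⟨C', hC'⟩ : ∃ C', LA = A ++ b :: C' := by
        have h1 : A <+: LA ++ ((la + rb) :: (RB ++ [0])) := ⟨b :: C, by rw [← h]; simp⟩
        have h2 : A <+: LA :=
          List.prefix_of_prefix_length_le h1 (List.prefix_append LA _) hlt.le
        obtain ⟨D, hD⟩ := h2
        rw [← hD] at h hlt
        simp only [List.append_assoc, List.append_cancel_left_eq] at h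
        cases D with
        | nil => simp at hlt
        | cons d D =>
          simp only [List.cons_append, List.cons.injEq] at h
          exact ⟨D, by rw [← hD, h.1]⟩
      subst hC'
      simp only [List.append_assoc, List.cons_append, List.append_cancel_left_eq,
        List.cons.injEq, true_and] at h
      have h1 := ihL hxL A b (C' ++ [la]) (by rw [hLA]; simp) y hy
      have hp : A.sum + y ≤ L.length := by
        simp only [List.length_append, List.length_cons, List.sum_append, List.sum_cons] at bL
        omega
      rw [ins_left x _ L (m :: R) hp]
      rw [fib_split _ R m (hinsL _) hR, stackSort_split _ R m (hinsL _) hR, h1.1, h1.2, hRB]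
      have e : A ++ (y + 2) :: (b - 1 - y) :: (C' ++ [la]) =
          (A ++ (y + 2) :: (b - 1 - y) :: C') ++ [la] := by simp
      rw [e, ov_eq, stackSort_split L R m hL hR]
      constructor
      · rw [← h]
        simp
      · have hle : A.length ≤ (stackSort L).length := by
          rw [lenSL]
          simp only [List.length_append, List.length_cons] at bL
          omega
        rw [List.append_assoc, List.append_assoc, ins_left x _ (stackSort L) _ hle]
    · -- at the overlap
      have hA : A = LA ∧ b = la + rb ∧ C = RB ++ [0] := by
        have h1 : LA ++ ((la + rb) :: (RB ++ [0])) = A ++ (b :: C) := by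
          rw [← h]; simp
        have h2 := List.append_inj h1 heq.symm
        rw [List.cons.injEq] at h2
        exact ⟨h2.1.symm, h2.2.1.symm, h2.2.2.symm⟩
      obtain ⟨rfl, rfl, rfl⟩ := hA
      by_cases hyl : y < la
      · have h1 := ihL hxL A la [] hLA y hyl
        have hp : A.sum + y ≤ L.length := by omega
        rw [ins_left x _ L (m :: R) hp]
        rw [fib_split _ R m (hinsL _) hR, stackSort_split _ R m (hinsL _) hR, h1.1, h1.2, hRB]
        have e : A ++ [y + 2, la - 1 - y] = (A ++ [y + 2]) ++ [la - 1 - y] := by simp
        rw [e, ov_eq, stackSort_split L R m hL hR]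
        constructor
        · have e2 : la - 1 - y + rb = la + rb - 1 - y := by omega
          rw [e2]
          simp
        · have hle : A.length ≤ (stackSort L).length := by
            rw [lenSL]; omega
          rw [List.append_assoc, List.append_assoc, ins_left x _ (stackSort L) _ hle]
      · obtain ⟨y', rfl⟩ := Nat.exists_eq_add_of_le (not_lt.1 hyl)
        have h1 := ihR hxR [] rb RB hRB y' (by omega)
        simp only [List.sum_nil, zero_add, List.nil_append, List.length_nil] at h1
        have hp : A.sum + (la + y') = L.length + 1 + y' := by omega
        rw [hp, ins_right']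
        rw [fib_split L _ m hL (hinsR _), stackSort_split L _ m hL (hinsR _), h1.1, h1.2, hLA,
          ov_eq, stackSort_split L R m hL hR]
        constructor
        · have e1 : la + (y' + 2) = la + y' + 2 := by omega
          have e2 : rb - 1 - y' = la + rb - 1 - (la + y') := by omega
          rw [e1, e2]
          simp
        · have e3 : A.length = (stackSort L).length + 0 := by rw [lenSL]; omega
          rw [e3, List.append_assoc, List.append_assoc, ins_right,
            ins_left x 0 (stackSort R) [m] (by omega)]
    · -- in the right part
      obtain ⟨A', hA'⟩ : ∃ A', A = LA ++ (la + rb) :: A' := by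
        have h1 : LA ++ ((la + rb) :: (RB ++ [0])) = A ++ (b :: C) := by
          rw [← h]; simp
        have h2 : LA ++ [la + rb] <+: A := by
          have h3 : LA ++ [la + rb] <+: A ++ (b :: C) := by
            rw [← h1]
            exact ⟨RB ++ [0], by simp⟩
          exact List.prefix_of_prefix_length_le h3 (List.prefix_append A _) (by simp; omega)
        obtain ⟨D, hD⟩ := h2
        exact ⟨D, by rw [← hD]; simp⟩
      subst hA'
      have h1 : RB ++ [0] = A' ++ b :: C := by
        have : LA ++ (la + rb) :: (RB ++ [0]) = LA ++ (la + rb) :: (A' ++ b :: C) := by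
          rw [← List.cons_append, ← List.cons_append, ← List.append_assoc, ← List.append_assoc]
          rw [h]
        simpa using this
      obtain ⟨C', hC'⟩ : ∃ C', C = C' ++ [0] := by
        rcases List.eq_nil_or_concat C with hC | ⟨C', c, hC⟩
        · rw [hC] at h1
          have := List.append_inj' h1 (by simp)
          simp at this
          omega
        · rw [hC, List.concat_eq_append] at h1
          have h2 : RB ++ [0] = (A' ++ b :: C') ++ [c] := by rw [h1]; simp
          have h3 := (List.append_inj' h2 (by simp)).2
          simp at h3
          exact ⟨C', by rw [hC, List.concat_eq_append, ← h3]⟩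
      subst hC'
      have h2 : RB = A' ++ b :: C' := by
        have : RB ++ [0] = (A' ++ b :: C') ++ [0] := by rw [h1]; simp
        exact List.append_cancel_right this
      have h3 := ihR hxR (rb :: A') b C' (by rw [hRB, h2]; simp) y hy
      rw [h2] at bR
      simp only [List.length_append, List.length_cons, List.sum_append, List.sum_cons] at bR
      have hp : (LA ++ (la + rb) :: A').sum + y = L.length + 1 + ((rb :: A').sum + y) := by
        simp only [List.sum_append, List.sum_cons]
        omega
      rw [hp, ins_right']
      rw [fib_split L _ m hL (hinsR _), stackSort_split L _ m hL (hinsR _), h3.1, h3.2, hLA,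
        List.cons_append, ov_eq, stackSort_split L R m hL hR]
      constructor
      · simp
      · have e3 : (LA ++ (la + rb) :: A').length = (stackSort L).length + (rb :: A').length := by
          rw [lenSL]
          simp only [List.length_append, List.length_cons]
          omega
        rw [e3, List.append_assoc, List.append_assoc, ins_right]
        rw [ins_left x _ (stackSort R) [m] (by rw [lenSR]; simp only [List.length_cons]; omega)]

end Pool.Agent.H26.T3
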