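import Pool.Agent.H26.T3.Strict

set_option autoImplicit false

/-!
Lists of words and histories.
-/

namespace Pool.Agent.H26.T3

open PowerSeries

/-- The successors of a list of words. -/
def lsplits (sw : Bool) : List (List ℕ) → List (List (List ℕ))
  | [] => []
  | W :: L => (wsplits sw W).map (fun mp => if sw then [mp.2, mp.1] else [mp.1, mp.2]) ++
      (lsplits sw L).map (fun N => W :: N)

/-- The number of histories of length `n` from a list of words. -/
def H (sw : Bool) : ℕ → List (List ℕ) → ℕ
  | 0, _ => 1
  | n + 1, L => ((lsplits sw L).map (H sw n)).sum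

noncomputable def PL (sw : Bool) (L : List (List ℕ)) : PowerSeries ℤ := (L.map (P sw 1)).prod

lemma PL_eq (sw : Bool) : ∀ L : List (List ℕ),
    PL sw L = 1 + X * ((lsplits sw L).map (PL sw)).sum := by
  intro L
  induction L with
  | nil => simp [PL, lsplits]
  | cons W L ih =>
    simp only [lsplits, List.map_append, List.sum_append, List.map_map]
    have h1 : ((wsplits sw W).map (PL sw ∘ fun mp =>
        if sw then [mp.2, mp.1] else [mp.1, mp.2])).sum =
        ((wsplits sw W).map (fun mp => P sw 1 mp.1 * P sw 1 mp.2)).sum := by
      congr 2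
      funext mp
      simp only [Function.comp_apply]
      cases sw
      · simp [PL]
      · simp [PL, mul_comm]
    have h2 : ((lsplits sw L).map (PL sw ∘ fun N => W :: N)).sum =
        P sw 1 W * ((lsplits sw L).map (PL sw)).sum := by
      rw [← List.sum_map_mul_left]
      rfl
    rw [h1, h2]
    have h3 : PL sw (W :: L) = P sw 1 W * PL sw L := by simp [PL]
    rw [h3, ih]
    have h4 := P_one sw W
    have h5 : P sw 1 W * (1 + X * ((lsplits sw L).map (PL sw)).sum) = P sw 1 W +
      X * (P sw 1 W * ((lsplits sw L).map (PL sw)).sum) := by ring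
    rw [h5, mul_add, ← add_assoc, ← h4]

lemma H_eq (sw : Bool) : ∀ (n : ℕ) (L : List (List ℕ)), (H sw n L : ℤ) = coeff n (PL sw L) := by
  intro n
  induction n with
  | zero =>
    intro L
    rw [PL_eq]
    simp [H]
  | succ n ih =>
    intro L
    rw [PL_eq, map_add, coeff_succ_X_mul, map_list_sum, List.map_map, coeff_one]
    simp only [H]
    rw [if_neg (by omega), zero_add, Nat.cast_list_sum, List.map_map]
    congr 2
    funext N
    simp only [Function.comp_apply]
    exact ih N

lemma H_start (sw : Bool) (n : ℕ) : H sw n [[1]] = pc sw n 1 [1] := by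
  have h := H_eq sw n [[1]]
  simp only [PL, List.map_cons, List.map_nil, List.prod_cons, List.prod_nil, mul_one] at h
  rw [coeff_P] at h
  exact_mod_cast h

theorem H_lt (n : ℕ) (hn : 5 ≤ n) : H false n [[1]] < H true n [[1]] := by
  rw [H_start, H_start]
  exact strict n hn

theorem H_le (n : ℕ) : H false n [[1]] ≤ H true n [[1]] := by
  rw [H_start, H_start]
  have h := cmp_pos [1] n
  rw [map_sub, coeff_P, coeff_P] at h
  have : (pc false n 1 [1] : ℤ) ≤ pc true n 1 [1] := by linarith
  exact_mod_cast this

lemma list_range_sum_nat (n : ℕ) (f : ℕ → ℕ) :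
    ((List.range n).map f).sum = ∑ i ∈ Finset.range n, f i := by
  induction n with
  | zero => simp
  | succ n ih => rw [List.range_succ, List.map_append, List.sum_append, ih,
      Finset.sum_range_succ]; simp

/-- Sums over the units of a word. -/
lemma sumW (sw : Bool) : ∀ (W : List ℕ) (f : ℕ → ℕ) (h : List ℕ × List ℕ → ℕ),
    (∀ Γ b Δ y, W = Γ ++ b :: Δ → y < b → f ((if sw then Δ.sum else Γ.sum) + y) =
      h (Γ ++ (if sw then [b - 1 - y, y + 2] else [y + 2, b - 1 - y]), Δ)) →
    ∑ p ∈ Finset.range W.sum, f p = ((wsplits sw W).map h).sum := by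
  intro W
  induction W with
  | nil => intro f h _; simp [wsplits]
  | cons b W ih =>
    intro f h hyp
    simp only [wsplits, List.map_append, List.sum_append, List.map_map, List.sum_cons]
    have h1 : ∀ y < b, f ((if sw then W.sum else 0) + y) =
        h ((if sw then [b - 1 - y, y + 2] else [y + 2, b - 1 - y]), W) := by
      intro y hy
      have := hyp [] b W y rfl hy
      simpa using this
    have h2 : ∑ p ∈ Finset.range W.sum, f ((if sw then 0 else b) + p) =
        ((wsplits sw W).map (h ∘ fun mp => (b :: mp.1, mp.2))).sum := by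
      apply ih (fun p => f ((if sw then 0 else b) + p)) (h ∘ fun mp => (b :: mp.1, mp.2))
      intro Γ c Δ y hW hy
      have := hyp (b :: Γ) c Δ y (by rw [hW]; rfl) hy
      cases sw
      · simpa [add_assoc] using this
      · simpa using this
    rw [← h2, list_range_sum_nat]
    have h3 : ∑ i ∈ Finset.range b, (h ∘ fun y =>
        ((if sw then [b - 1 - y, y + 2] else [y + 2, b - 1 - y]), W)) i =
        ∑ y ∈ Finset.range b, f ((if sw then W.sum else 0) + y) := by
      apply Finset.sum_congr rfl
      intro y hy
      rw [h1 y (Finset.mem_range.1 hy)]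
      rfl
    rw [h3]
    cases sw
    · simp only [Bool.false_eq_true, if_false, zero_add]
      rw [Finset.sum_range_add]
    · simp only [if_true, zero_add]
      rw [add_comm b, Finset.sum_range_add, add_comm]

lemma sumW_zero (W : List ℕ) (f : ℕ → ℕ) (hyp : ∀ Γ b Δ y, W = Γ ++ b :: Δ → y < b →
    f (Γ.sum + y) = 0) : ∑ p ∈ Finset.range W.sum, f p = 0 := by
  rw [sumW false W f (fun _ => 0) (by simpa using hyp)]
  simp

/-- Sums over the units of a list of words; only the first `r` words count. -/
lemma sumL (sw : Bool) : ∀ (L : List (List ℕ)) (r : ℕ) (f : ℕ → ℕ) (h : List (List ℕ) → ℕ),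
    (∀ B W D Γ b Δ y, L = B ++ W :: D → W = Γ ++ b :: Δ → y < b →
      f (B.flatten.sum + ((if sw then Δ.sum else Γ.sum) + y)) =
      if B.length < r then h (B ++ (if sw then [Δ, Γ ++ [b - 1 - y, y + 2]] else
        [Γ ++ [y + 2, b - 1 - y], Δ])) else 0) →
    ∑ p ∈ Finset.range L.flatten.sum, f p = ((lsplits sw (L.take r)).map h).sum := by
  intro L
  induction L with
  | nil => intro r f h _; simp [lsplits]
  | cons W L ih =>
    intro r f h hyp
    rw [List.flatten_cons, List.sum_append, Finset.sum_range_add]
    cases r with
    | zero =>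
      simp only [List.take_zero, lsplits, List.map_nil, List.sum_nil]
      have h1 : ∑ p ∈ Finset.range W.sum, f p = 0 := by
        have := sumW sw W f (fun _ => 0) (by
          intro Γ b Δ y hW hy
          have := hyp [] W L Γ b Δ y rfl hW hy
          simpa using this)
        rw [this]
        simp
      have h2 := ih 0 (fun p => f (W.sum + p)) h (by
        intro B V D Γ b Δ y hL hV hy
        have := hyp (W :: B) V D Γ b Δ y (by rw [hL]; rfl) hV hy
        simpa [add_assoc] using this)
      rw [h1, h2]
      simp [lsplits]
    | succ r =>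
      simp only [List.take_succ_cons, lsplits, List.map_append, List.sum_append, List.map_map]
      have h1 := sumW sw W f (h ∘ fun mp => if sw then [mp.2, mp.1] else [mp.1, mp.2]) (by
          intro Γ b Δ y hW hy
          have := hyp [] W L Γ b Δ y rfl hW hy
          cases sw
          · simpa using this
          · simpa using this)
      have h2 := ih r (fun p => f (W.sum + p)) (h ∘ fun N => W :: N) (by
        intro B V D Γ b Δ y hL hV hy
        have := hyp (W :: B) V D Γ b Δ y (by rw [hL]; rfl) hV hy
        simpa [add_assoc] using this)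
      rw [h1, h2]

end Pool.Agent.H26.T3
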