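import Pool.Agent.H26.T3.Fib
import Pool.Agent.H26.T3.States

set_option autoImplicit false

/-!
The number of extensions of a word which are sorted by three passes.
-/

namespace Pool.Agent.H26.T3

open Pool.Agent.H19.StackSort

/-- Number of ways to insert the letters `m, …, 1` into `w` so that the result is sorted
by three applications of `T`. -/
def E (T : List ℕ → List ℕ) : ℕ → List ℕ → ℕ
  | 0, w => if (T (T (T w))).Pairwise (· < ·) then 1 else 0
  | m + 1, w => ∑ p ∈ Finset.range (w.length + 1), E T m (ins (m + 1) p w)

lemma decomp : ∀ (F : List ℕ) (q : ℕ), q < F.sum →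
    ∃ A b C y, F = A ++ b :: C ∧ q = A.sum + y ∧ y < b := by
  intro F
  induction F with
  | nil => intro q hq; simp at hq
  | cons a F ih =>
    intro q hq
    by_cases h : q < a
    · exact ⟨[], a, F, q, rfl, by simp, h⟩
    · obtain ⟨q', rfl⟩ := Nat.exists_eq_add_of_le (not_lt.1 h)
      rw [List.sum_cons] at hq
      obtain ⟨A, b, C, y, h1, h2, h3⟩ := ih q' (by omega)
      exact ⟨a :: A, b, C, y, by rw [h1]; rfl, by rw [List.sum_cons, h2]; omega, h3⟩

lemma final_step (x : ℕ) (v : List ℕ) (hv : v.Nodup) (hx : ∀ y ∈ v, x < y) (r : ℕ) (C : List ℕ)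
    (hf : fib v = r :: C) (q : ℕ) (hq : q < v.length + 1) :
    ∃ r' C', fib (ins x q v) = r' :: C' ∧
      ((stackSort (ins x q v)).Pairwise (· < ·) ↔ (q < r ∧ (stackSort v).Pairwise (· < ·))) ∧
      (q < r → r' = q + 2) := by
  by_cases h : q < r
  · have k := key x v hv hx [] r C hf q h
    simp only [List.sum_nil, zero_add, List.nil_append, List.length_nil] at k
    refine ⟨q + 2, (r - 1 - q) :: C, k.1, ?_, fun _ => rfl⟩
    rw [k.2, ins_zero, List.pairwise_cons]
    constructor
    · intro h1; exact ⟨h, h1.2⟩
    · intro h1
      refine ⟨?_, h1.2⟩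
      intro a ha
      exact hx a ((stackSort_perm v hv).mem_iff.1 ha)
  · have hs : q < (fib v).sum := by rw [(fib_basic v hv).2]; exact hq
    obtain ⟨A, b, C', y, h1, h2, h3⟩ := decomp (fib v) q hs
    cases A with
    | nil =>
      exfalso
      rw [hf] at h1
      simp only [List.nil_append, List.cons.injEq] at h1
      simp only [List.sum_nil, zero_add] at h2
      omega
    | cons a A =>
      have k := key x v hv hx (a :: A) b C' h1 y h3
      rw [← h2] at k
      refine ⟨a, A ++ (y + 2) :: (b - 1 - y) :: C', by rw [k.1]; rfl, ?_, fun h' => absurd h' h⟩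
      rw [k.2]
      constructor
      · intro h4
        exfalso
        have hlen := (fib_basic v hv).1
        rw [h1] at hlen
        simp only [List.cons_append, List.length_cons, List.length_append] at hlen
        have hsl := stackSort_length v hv
        cases hSv : stackSort v with
        | nil => rw [hSv] at hsl; simp only [List.length_nil] at hsl; omega
        | cons z V =>
          rw [hSv] at h4
          have e : ins x (a :: A).length (z :: V) = z :: ins x A.length V := by
            simp [ins]
          rw [e, List.pairwise_cons] at h4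
          have h5 := h4.1 x (by unfold ins; simp)
          have h6 : z ∈ v := (stackSort_perm v hv).mem_iff.1 (by rw [hSv]; simp)
          have := hx z h6
          omega
      · intro h4; exact absurd h4.1 h

lemma ins_nodup (x p : ℕ) (w : List ℕ) (hw : w.Nodup) (hx : ∀ y ∈ w, x < y) :
    (ins x p w).Nodup := by
  rw [(ins_perm x p w).nodup_iff, List.nodup_cons]
  exact ⟨fun h => absurd (hx x h) (lt_irrefl x), hw⟩

lemma ins_gt (x p : ℕ) (w : List ℕ) (m : ℕ) (hm : m < x) (hx : ∀ y ∈ w, x < y) :
    ∀ y ∈ ins x p w, m < y := by
  intro y hy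
  rcases List.mem_cons.1 ((ins_perm x p w).mem_iff.1 hy) with h | h
  · rw [h]; exact hm
  · exact hm.trans (hx y h)

theorem mainS : ∀ (m : ℕ) (w : List ℕ) (st : List (List ℕ)) (r : ℕ) (C : List ℕ),
    w.Nodup → (∀ y ∈ w, m < y) → fib w = st.flatten → fib (stackSort w) = st.map List.length →
    fib (stackSort (stackSort w)) = r :: C →
    E stackSort m w = if (stackSort (stackSort (stackSort w))).Pairwise (· < ·) then
      H false m (st.take r) else 0 := by
  intro m
  induction m with
  | zero => intro w st r C _ _ _ _ _; rfl
  | succ m ih =>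
    intro w st r C hw hx h1 h2 h3
    have p1 := stackSort_perm w hw
    have hw1 : (stackSort w).Nodup := p1.nodup_iff.2 hw
    have p2 := stackSort_perm _ hw1
    have hw2 : (stackSort (stackSort w)).Nodup := p2.nodup_iff.2 hw1
    have hx1 : ∀ y ∈ stackSort w, m + 1 < y := fun y hy => hx y (p1.mem_iff.1 hy)
    have hx2 : ∀ y ∈ stackSort (stackSort w), m + 1 < y :=
      fun y hy => hx1 y (p2.mem_iff.1 hy)
    have hsum : w.length + 1 = st.flatten.sum := by rw [← h1, (fib_basic w hw).2]
    simp only [E]
    rw [hsum, sumL false st r (fun p => E stackSort m (ins (m + 1) p w))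
      (fun L => if (stackSort (stackSort (stackSort w))).Pairwise (· < ·) then
        H false m L else 0)]
    · by_cases hs : (stackSort (stackSort (stackSort w))).Pairwise (· < ·)
      · simp [hs, H]
      · simp [hs]
    · intro B W D Γ b Δ y hst hW hy
      simp only [Bool.false_eq_true, if_false]
      have k1 := key (m + 1) w hw hx (B.flatten ++ Γ) b (Δ ++ D.flatten)
        (by rw [h1, hst, hW]; simp) y hy
      have e1 : (B.flatten ++ Γ).sum + y = B.flatten.sum + (Γ.sum + y) := by
        rw [List.sum_append, add_assoc]
      rw [e1] at k1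
      have hWl : W.length = Γ.length + 1 + Δ.length := by
        rw [hW]; simp only [List.length_append, List.length_cons]; omega
      have k2 := key (m + 1) (stackSort w) hw1 hx1 (B.map List.length) W.length
        (D.map List.length) (by rw [h2, hst]; simp) Γ.length (by omega)
      have e2 : (B.map List.length).sum + Γ.length = (B.flatten ++ Γ).length := by
        rw [List.length_append, List.length_flatten]
      rw [e2, ← k1.2, List.length_map] at k2
      have hlen : st.length = w.length + 1 := by
        have := (fib_basic _ hw1).1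
        rw [h2, List.length_map, p1.length_eq] at this
        exact this
      have hB : B.length < (stackSort (stackSort w)).length + 1 := by
        rw [p2.length_eq, p1.length_eq, ← hlen, hst]
        simp
      obtain ⟨r', C', k3, k4, k5⟩ := final_step (m + 1) _ hw2 hx2 r C h3 B.length hB
      rw [← k2.2] at k3 k4
      have key' := ih (ins (m + 1) (B.flatten.sum + (Γ.sum + y)) w)
        (B ++ (Γ ++ [y + 2, b - 1 - y]) :: Δ :: D) r' C'
        (ins_nodup _ _ _ hw hx) (ins_gt _ _ _ m (by omega) hx)
        (by rw [k1.1]; simp) (by
          rw [k2.1]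
          have : W.length - 1 - Γ.length = Δ.length := by omega
          simp [this]) k3
      rw [key']
      by_cases hB : B.length < r
      · rw [if_pos hB, k5 hB]
        have e3 : (B ++ (Γ ++ [y + 2, b - 1 - y]) :: Δ :: D).take (B.length + 2) =
            B ++ [Γ ++ [y + 2, b - 1 - y], Δ] := by
          rw [List.take_length_add_append]
          simp
        rw [e3]
        by_cases hs : (stackSort (stackSort (stackSort w))).Pairwise (· < ·)
        · rw [if_pos (k4.2 ⟨hB, hs⟩), if_pos hs]
        · rw [if_neg (fun h => hs (k4.1 h).2), if_neg hs]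
      · rw [if_neg hB, if_neg (fun h => hB (k4.1 h).1)]

end Pool.Agent.H26.T3
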