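import Pool.Agent.H26.T3.Main

set_option autoImplicit false

/-!
The same for the revstack sort operator, and the number of sorted permutations.
-/

namespace Pool.Agent.H26.T3

open Pool.Agent.H19.StackSort

lemma revstackSort_eq : ∀ w : List ℕ, w.Nodup → revstackSort w = stackSort w.reverse := by
  apply nodup_induction
  · rw [revstackSort_nil, List.reverse_nil, stackSort_nil]
  · intro L R m _ hL hR ihL ihR
    have e : (L ++ m :: R).reverse = R.reverse ++ m :: L.reverse := by simp
    rw [revstackSort_split L R m hL hR, e,
      stackSort_split R.reverse L.reverse m (by simpa using hR) (by simpa using hL), ihL, ihR]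

lemma sum_flatten_reverse (B : List (List ℕ)) : B.reverse.flatten.sum = B.flatten.sum := by
  rw [List.sum_flatten, List.sum_flatten, List.map_reverse, List.sum_reverse]

theorem mainT : ∀ (m : ℕ) (w : List ℕ) (ts : List (List ℕ)) (r : ℕ) (C : List ℕ),
    w.Nodup → (∀ y ∈ w, m < y) → fib w.reverse = (ts.reverse.flatten).reverse →
    fib (revstackSort w).reverse = (ts.map List.length).reverse →
    fib (revstackSort (revstackSort w)).reverse = r :: C →
    E revstackSort m w =
      if (revstackSort (revstackSort (revstackSort w))).Pairwise (· < ·) then
      H true m (ts.take r) else 0 := by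
  intro m
  induction m with
  | zero => intro w ts r C _ _ _ _ _; rfl
  | succ m ih =>
    intro w ts r C hw hx h1 h2 h3
    have p1 := revstackSort_perm w hw
    have hw1 : (revstackSort w).Nodup := p1.nodup_iff.2 hw
    have p2 := revstackSort_perm _ hw1
    have hw2 : (revstackSort (revstackSort w)).Nodup := p2.nodup_iff.2 hw1
    have hwr : w.reverse.Nodup := List.nodup_reverse.2 hw
    have hw1r : (revstackSort w).reverse.Nodup := List.nodup_reverse.2 hw1
    have hw2r : (revstackSort (revstackSort w)).reverse.Nodup := List.nodup_reverse.2 hw2
    have hx0 : ∀ y ∈ w.reverse, m + 1 < y := fun y hy => hx y (List.mem_reverse.1 hy)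
    have hx1 : ∀ y ∈ (revstackSort w).reverse, m + 1 < y :=
      fun y hy => hx y (p1.mem_iff.1 (List.mem_reverse.1 hy))
    have hx2 : ∀ y ∈ (revstackSort (revstackSort w)).reverse, m + 1 < y :=
      fun y hy => hx y (p1.mem_iff.1 (p2.mem_iff.1 (List.mem_reverse.1 hy)))
    have hsum : w.length + 1 = ts.flatten.sum := by
      have := (fib_basic w.reverse hwr).2
      rw [h1, List.sum_reverse, sum_flatten_reverse, List.length_reverse] at this
      exact this.symm
    simp only [E]
    rw [← Finset.sum_range_reflect]
    rw [hsum, sumL true ts r (fun p => E revstackSort m (ins (m + 1) (ts.flatten.sum - 1 - p) w))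
      (fun L => if (revstackSort (revstackSort (revstackSort w))).Pairwise (· < ·) then
        H true m L else 0)]
    · by_cases hs : (revstackSort (revstackSort (revstackSort w))).Pairwise (· < ·)
      · simp [hs, H]
      · simp [hs]
    · intro B W D Γ b Δ y hts hW hy
      simp only [if_true]
      -- lengths
      have hWl : W.length = Γ.length + 1 + Δ.length := by
        rw [hW]; simp only [List.length_append, List.length_cons]; omega
      have hp : B.flatten.sum + (Δ.sum + y) < ts.flatten.sum := by
        rw [hts, hW]
        simp only [List.flatten_append, List.flatten_cons, List.sum_append, List.sum_cons]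
        omega
      set p := B.flatten.sum + (Δ.sum + y) with hpdef
      have hq : ts.flatten.sum - 1 - p = w.length - p := by omega
      rw [hq]
      have hrev : (ins (m + 1) (w.length - p) w).reverse = ins (m + 1) p w.reverse := by
        rw [ins_reverse _ _ _ (by omega)]
        congr 1
        omega
      -- first pass
      have k1 := key (m + 1) w.reverse hwr hx0 (B.reverse.flatten.reverse ++ Δ.reverse) b
        (Γ.reverse ++ D.reverse.flatten.reverse) (by rw [h1, hts, hW]; simp) y hy
      have e1 : (B.reverse.flatten.reverse ++ Δ.reverse).sum + y = p := by
        rw [List.sum_append, List.sum_reverse, List.sum_reverse, sum_flatten_reverse, hpdef,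
          add_assoc]
      rw [e1, ← hrev] at k1
      have hw' := ins_nodup (m + 1) (w.length - p) w hw hx
      have hT1 : revstackSort (ins (m + 1) (w.length - p) w) =
          ins (m + 1) (B.reverse.flatten.reverse ++ Δ.reverse).length (revstackSort w) := by
        rw [revstackSort_eq _ hw', k1.2, revstackSort_eq _ hw]
      have hl1 : (B.reverse.flatten.reverse ++ Δ.reverse).length + 1 +
          (Γ.reverse ++ D.reverse.flatten.reverse).length = w.length + 1 := by
        have := (fib_basic w.reverse hwr).1
        rw [h1, hts, hW] at this
        simp only [List.length_reverse] at this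
        rw [← this]
        simp only [List.length_append, List.length_reverse, List.reverse_append,
          List.reverse_cons, List.flatten_append, List.flatten_cons,
          List.length_cons, List.flatten_nil, List.length_nil]
        omega
      have hT1r : (revstackSort (ins (m + 1) (w.length - p) w)).reverse =
          ins (m + 1) (Γ.reverse ++ D.reverse.flatten.reverse).length
            (revstackSort w).reverse := by
        rw [hT1, ins_reverse _ _ _ (by rw [p1.length_eq]; omega), p1.length_eq]
        congr 1
        omega
      -- second pass
      have k2 := key (m + 1) (revstackSort w).reverse hw1r hx1 (D.map List.length).reverse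
        W.length (B.map List.length).reverse (by rw [h2, hts]; simp) Γ.length (by omega)
      have e2 : (D.map List.length).reverse.sum + Γ.length =
          (Γ.reverse ++ D.reverse.flatten.reverse).length := by
        rw [List.length_append, List.length_reverse, List.length_reverse, List.length_flatten,
          List.sum_reverse, List.map_reverse, List.sum_reverse]
        omega
      rw [e2, ← hT1r, List.length_reverse, List.length_map] at k2
      have hw1' : (revstackSort (ins (m + 1) (w.length - p) w)).Nodup :=
        (revstackSort_perm _ hw').nodup_iff.2 hw'
      have hT2 : revstackSort (revstackSort (ins (m + 1) (w.length - p) w)) =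
          ins (m + 1) D.length (revstackSort (revstackSort w)) := by
        rw [revstackSort_eq _ hw1', k2.2, ← revstackSort_eq _ hw1]
      have hlen : ts.length = w.length + 1 := by
        have := (fib_basic _ hw1r).1
        rw [h2, List.length_reverse, List.length_map, List.length_reverse, p1.length_eq] at this
        exact this
      have hlts : ts.length = B.length + 1 + D.length := by
        rw [hts]; simp only [List.length_append, List.length_cons]; omega
      have hT2r : (revstackSort (revstackSort (ins (m + 1) (w.length - p) w))).reverse =
          ins (m + 1) B.length (revstackSort (revstackSort w)).reverse := by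
        rw [hT2, ins_reverse _ _ _ (by rw [p2.length_eq, p1.length_eq]; omega), p2.length_eq,
          p1.length_eq]
        congr 1
        omega
      have hB : B.length < (revstackSort (revstackSort w)).reverse.length + 1 := by
        rw [List.length_reverse, p2.length_eq, p1.length_eq]
        omega
      obtain ⟨r', C', k3, k4, k5⟩ := final_step (m + 1) _ hw2r hx2 r C h3 B.length hB
      rw [← hT2r] at k3 k4
      have hw2' : (revstackSort (revstackSort (ins (m + 1) (w.length - p) w))).Nodup :=
        (revstackSort_perm _ hw1').nodup_iff.2 hw1'
      rw [← revstackSort_eq _ hw2', ← revstackSort_eq _ hw2] at k4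
      have key' := ih (ins (m + 1) (w.length - p) w)
        (B ++ Δ :: (Γ ++ [b - 1 - y, y + 2]) :: D) r' C'
        hw' (ins_gt _ _ _ m (by omega) hx)
        (by rw [k1.1]; simp) (by
          rw [k2.1]
          have : W.length - 1 - Γ.length = Δ.length := by omega
          simp [this]) k3
      rw [key']
      by_cases hB : B.length < r
      · rw [if_pos hB, k5 hB]
        have e3 : (B ++ Δ :: (Γ ++ [b - 1 - y, y + 2]) :: D).take (B.length + 2) =
            B ++ [Δ, Γ ++ [b - 1 - y, y + 2]] := by
          rw [List.take_length_add_append]
          simp
        rw [e3]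
        by_cases hs : (revstackSort (revstackSort (revstackSort w))).Pairwise (· < ·)
        · rw [if_pos (k4.2 ⟨hB, hs⟩), if_pos hs]
        · rw [if_neg (fun h => hs (k4.1 h).2), if_neg hs]
      · rw [if_neg hB, if_neg (fun h => hB (k4.1 h).1)]

theorem E_S (n : ℕ) : E stackSort n [] = H false n [[1]] := by
  have h := mainS n [] [[1]] 1 [] (by simp) (by simp) (by rw [fib_nil]; rfl)
    (by rw [stackSort_nil, fib_nil]; rfl) (by rw [stackSort_nil, stackSort_nil, fib_nil])
  rw [h, stackSort_nil, stackSort_nil, stackSort_nil]
  simp

theorem E_T (n : ℕ) : E revstackSort n [] = H true n [[1]] := by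
  have h := mainT n [] [[1]] 1 [] (by simp) (by simp) (by rw [List.reverse_nil, fib_nil]; rfl)
    (by rw [revstackSort_nil, List.reverse_nil, fib_nil]; rfl)
    (by rw [revstackSort_nil, revstackSort_nil, List.reverse_nil, fib_nil])
  rw [h, revstackSort_nil, revstackSort_nil, revstackSort_nil]
  simp

/-- The words obtained from `w` by inserting the letters `m, …, 1`. -/
def exts : ℕ → List ℕ → List (List ℕ)
  | 0, w => [w]
  | m + 1, w => (List.permutations'Aux (m + 1) w).flatMap (exts m)

lemma permutations'Aux_eq (x : ℕ) : ∀ w : List ℕ, List.permutations'Aux x w =
    (List.range (w.length + 1)).map (fun p => ins x p w) := by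
  intro w
  induction w with
  | nil => simp [List.permutations'Aux, ins]
  | cons y w ih =>
    rw [List.permutations'Aux, ih, List.length_cons, List.range_succ_eq_map (n := w.length + 1),
      List.map_cons, List.map_map, List.map_map]
    simp only [ins_zero]
    congr 1

lemma E_eq (T : List ℕ → List ℕ) : ∀ (m : ℕ) (w : List ℕ), E T m w =
    (exts m w).countP (fun v => decide ((T (T (T v))).Pairwise (· < ·))) := by
  intro m
  induction m with
  | zero =>
    intro w
    simp only [E, exts, List.countP_singleton, decide_eq_true_eq]
  | succ m ih =>
    intro w
    simp only [E, exts]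
    rw [List.countP_flatMap, permutations'Aux_eq, List.map_map, list_range_sum_nat]
    apply Finset.sum_congr rfl
    intro p _
    rw [ih]
    rfl

lemma exts_eq : ∀ (m k : ℕ), (List.permutations' (List.range' (m + 1) k)).flatMap (exts m) =
    List.permutations' (List.range' 1 (m + k)) := by
  intro m
  induction m with
  | zero => intro k; simp [exts]
  | succ m ih =>
    intro k
    have e : exts (m + 1) = fun w => (List.permutations'Aux (m + 1) w).flatMap (exts m) := by
      funext w; rfl
    rw [e, ← List.flatMap_assoc]
    have e2 : (List.permutations' (List.range' (m + 1 + 1) k)).flatMap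
        (List.permutations'Aux (m + 1)) = List.permutations' (List.range' (m + 1) (k + 1)) := by
      rw [List.range'_succ]
      rfl
    rw [e2, ih]
    congr 2
    omega

lemma exts_nil (n : ℕ) : exts n [] = List.permutations' (List.range' 1 n) := by
  have := exts_eq n 0
  simpa using this

theorem ncard_eq (T : List ℕ → List ℕ) (hT : ∀ w : List ℕ, w.Nodup → (T w).Perm w) (n : ℕ) :
    Set.ncard {w : List ℕ | w.Perm (List.range' 1 n) ∧ T^[3] w = List.range' 1 n} =
      E T n [] := by
  rw [E_eq, exts_nil, List.countP_eq_length_filter]
  have hnd : (List.permutations' (List.range' 1 n)).Nodup :=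
    (List.permutations_perm_permutations' _).nodup_iff.1
      (List.nodup_permutations _ (List.nodup_range' (step := 1) (by omega)))
  rw [← List.toFinset_card_of_nodup (hnd.filter _), ← Set.ncard_coe_finset]
  congr 1
  ext w
  simp only [Set.mem_ofPred_eq, List.coe_toFinset, List.mem_filter, List.mem_permutations',
    decide_eq_true_eq, Function.iterate_succ, Function.iterate_zero, Function.comp_apply, id_eq]
  constructor
  · rintro ⟨h1, h2⟩
    refine ⟨h1, ?_⟩
    rw [h2]
    exact List.pairwise_lt_range'
  · rintro ⟨h1, h2⟩
    refine ⟨h1, ?_⟩
    have hw : w.Nodup := h1.nodup_iff.2 (List.nodup_range' (step := 1) (by omega))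
    have q1 := hT w hw
    have hw1 := q1.nodup_iff.2 hw
    have q2 := hT _ hw1
    have hw2 := q2.nodup_iff.2 hw1
    have q3 := hT _ hw2
    have q : (T (T (T w))).Perm (List.range' 1 n) := q3.trans (q2.trans (q1.trans h1))
    exact q.eq_of_pairwise' h2 List.pairwise_lt_range'

end Pool.Agent.H26.T3
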