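import Pool.Agent.H26.T3.Peel

set_option autoImplicit false

/-!
The minor inequality in the model `sw = true`.
-/

namespace Pool.Agent.H26.T3

open PowerSeries

lemma list_range_sum (n : ℕ) (f : ℕ → PowerSeries ℤ) :
    ((List.range n).map f).sum = ∑ i ∈ Finset.range n, f i := by
  induction n with
  | zero => simp
  | succ n ih => rw [List.range_succ, List.map_append, List.sum_append, ih,
      Finset.sum_range_succ]; simp

/-- Differences of `lam` in the letter. -/
noncomputable def M (b κ : ℕ) : PowerSeries ℤ := lam true (b + 1) κ - lam true b κ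

lemma lam_true (b κ : ℕ) : lam true b κ = X * ∑ y ∈ Finset.range b,
    (P true (κ + 1) [y + 2] + ∑ j ∈ Finset.range (κ + 1),
      lam true (b - 1 - y) j * P true (κ + 2 - j) [y + 2]) := by
  rw [lam_eq, lsp, List.map_map, list_range_sum]
  congr 1
  apply Finset.sum_congr rfl
  intro y _
  simp only [Function.comp_apply, if_true]
  rw [peel]

lemma M_eq (b κ : ℕ) : M b κ = X * (P true (κ + 1) [b + 2] +
    ∑ y ∈ Finset.range b, ∑ j ∈ Finset.range (κ + 1),
      M (b - 1 - y) j * P true (κ + 2 - j) [y + 2]) := by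
  unfold M
  rw [lam_true (b + 1), lam_true b, ← mul_sub, Finset.sum_range_succ]
  congr 1
  have h0 : ∑ j ∈ Finset.range (κ + 1), lam true (b + 1 - 1 - b) j * P true (κ + 2 - j) [b + 2]
      = 0 := by
    simp [lam_zero]
  rw [h0, add_zero]
  have h1 : ∀ u v w : PowerSeries ℤ, u + v - w = v + (u - w) := by intro u v w; ring
  rw [h1, ← Finset.sum_sub_distrib]
  congr 1
  apply Finset.sum_congr rfl
  intro y hy
  rw [Finset.mem_range] at hy
  rw [add_sub_add_left_eq_sub, ← Finset.sum_sub_distrib]
  apply Finset.sum_congr rfl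
  intro j _
  have h2 : b + 1 - 1 - y = b - 1 - y + 1 := by omega
  rw [h2]
  ring

lemma pos_M : ∀ b κ, Pos (M b κ) := by
  intro b
  induction b using Nat.strong_induction_on with
  | _ b ih =>
    intro κ
    rw [M_eq]
    apply Pos.X_mul
    apply Pos.add (pos_P _ _ _)
    apply Pos.sum
    intro y hy
    rw [Finset.mem_range] at hy
    apply Pos.sum
    intro j _
    exact (ih (b - 1 - y) (by omega) j).mul (pos_P _ _ _)

lemma P_single (sw : Bool) (c μ : ℕ) :
    P sw μ [c] = 1 + ∑ j ∈ Finset.range μ, lam sw c j := by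
  induction μ with
  | zero => simp [P_zero]
  | succ μ ih => rw [Finset.sum_range_succ, ← add_assoc, ← ih]; unfold lam; ring

lemma P_single_succ (c μ : ℕ) :
    P true μ [c + 1] = P true μ [c] + ∑ j ∈ Finset.range μ, M c j := by
  rw [P_single, P_single]
  unfold M
  rw [Finset.sum_sub_distrib]
  ring

lemma lam_eq_sum (b κ : ℕ) : lam true b κ = ∑ i ∈ Finset.range b, M i κ := by
  induction b with
  | zero => simp [lam_zero]
  | succ b ih => rw [Finset.sum_range_succ, ← ih]; unfold M; ring

lemma NN.congr {n : ℕ} {f g : PowerSeries ℤ} (h : NN n f) (e : f = g) : NN n g := e ▸ h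

lemma step_aux (n : ℕ) (h : ∀ b κ, NN n (P true 1 [2] * M b κ - P true (κ + 1) [2] * M b 0)) :
    ∀ b κ, NN n (P true 1 [2] * P true (κ + 1) [b + 2] -
      P true (κ + 1) [2] * P true 1 [b + 2]) := by
  intro b κ
  induction b with
  | zero =>
    apply NN.congr (f := 0)
    · exact pos_zero.nn n
    · ring
  | succ b ih =>
    have e : P true 1 [2] * P true (κ + 1) [b + 1 + 2] -
      P true (κ + 1) [2] * P true 1 [b + 1 + 2] =
      (P true 1 [2] * P true (κ + 1) [b + 2] - P true (κ + 1) [2] * P true 1 [b + 2]) +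
      (∑ j ∈ Finset.range (κ + 1), (P true 1 [2] * M (b + 2) j -
        P true (j + 1) [2] * M (b + 2) 0) +
      (∑ j ∈ Finset.range κ, P true (j + 1) [2]) * M (b + 2) 0) := by
      have h1 : b + 1 + 2 = b + 2 + 1 := by omega
      rw [h1, P_single_succ (b + 2) (κ + 1), P_single_succ (b + 2) 1, Finset.sum_range_one, Finset.sum_sub_distrib,
        ← Finset.mul_sum, ← Finset.sum_mul, Finset.sum_range_succ (fun j => P true (j + 1) [2]) κ]
      ring
    rw [e]
    apply NN.add ih
    apply NN.add
    · exact NN.sum _ _ fun j _ => h (b + 2) j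
    · apply NN.mul
      · exact NN.sum _ _ fun j _ => (pos_P _ _ _).nn n
      · exact (pos_M _ _).nn n

theorem minor_nn : ∀ n b κ, NN n (P true 1 [2] * M b κ - P true (κ + 1) [2] * M b 0) := by
  intro n
  induction n with
  | zero => intro b κ m hm; omega
  | succ n ih =>
    intro b κ
    have e : P true 1 [2] * M b κ - P true (κ + 1) [2] * M b 0 =
        X * ((P true 1 [2] * P true (κ + 1) [b + 2] -
          P true (κ + 1) [2] * P true 1 [b + 2]) +
        ∑ y ∈ Finset.range b, (P true 1 [2] * (∑ j ∈ Finset.range κ,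
          M (b - 1 - y) j * P true (κ + 2 - j) [y + 2]) +
          P true 2 [y + 2] * (P true 1 [2] * M (b - 1 - y) κ -
            P true (κ + 1) [2] * M (b - 1 - y) 0))) := by
      rw [M_eq b κ, M_eq b 0]
      have h1 : ∑ y ∈ Finset.range b, ∑ j ∈ Finset.range (κ + 1),
          M (b - 1 - y) j * P true (κ + 2 - j) [y + 2] =
          ∑ y ∈ Finset.range b, ((∑ j ∈ Finset.range κ,
            M (b - 1 - y) j * P true (κ + 2 - j) [y + 2]) +
            M (b - 1 - y) κ * P true 2 [y + 2]) := by
        apply Finset.sum_congr rfl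
        intro y _
        rw [Finset.sum_range_succ]
        congr 3
        omega
      have h2 : ∑ y ∈ Finset.range b, ∑ j ∈ Finset.range (0 + 1),
          M (b - 1 - y) j * P true (0 + 2 - j) [y + 2] =
          ∑ y ∈ Finset.range b, M (b - 1 - y) 0 * P true 2 [y + 2] := by
        apply Finset.sum_congr rfl
        intro y _
        rw [Finset.sum_range_one]
      have h3 : ∑ y ∈ Finset.range b, (P true 1 [2] * (∑ j ∈ Finset.range κ,
          M (b - 1 - y) j * P true (κ + 2 - j) [y + 2]) +
          P true 2 [y + 2] * (P true 1 [2] * M (b - 1 - y) κ -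
            P true (κ + 1) [2] * M (b - 1 - y) 0)) =
          P true 1 [2] * (∑ y ∈ Finset.range b, ((∑ j ∈ Finset.range κ,
            M (b - 1 - y) j * P true (κ + 2 - j) [y + 2]) +
            M (b - 1 - y) κ * P true 2 [y + 2])) -
          P true (κ + 1) [2] * ∑ y ∈ Finset.range b, M (b - 1 - y) 0 * P true 2 [y + 2] := by
        rw [Finset.mul_sum, Finset.mul_sum, ← Finset.sum_sub_distrib]
        apply Finset.sum_congr rfl
        intro y _
        ring
      rw [h1, h2, h3]
      ring
    rw [e]
    apply NN.X_mul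
    apply NN.add
    · exact step_aux n ih b κ
    · apply NN.sum
      intro y _
      apply NN.add
      · apply NN.mul ((pos_P _ _ _).nn n)
        apply NN.sum
        intro j _
        exact ((pos_M _ _).nn n).mul ((pos_P _ _ _).nn n)
      · exact ((pos_P _ _ _).nn n).mul (ih _ _)

theorem pos_minorM (b κ : ℕ) : Pos (P true 1 [2] * M b κ - P true (κ + 1) [2] * M b 0) :=
  pos_of_nn fun n => minor_nn n b κ

lemma lam_one (κ : ℕ) : lam true 1 κ = X * P true (κ + 1) [2] := by
  rw [lam_eq_sum, Finset.sum_range_one, M_eq]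
  simp

theorem minor_eq (b κ : ℕ) :
    lam true 1 0 * lam true b κ - lam true b 0 * lam true 1 κ =
    X * ∑ i ∈ Finset.range b, (P true 1 [2] * M i κ - P true (κ + 1) [2] * M i 0) := by
  rw [lam_one, lam_one, lam_eq_sum b κ, lam_eq_sum b 0, Finset.sum_sub_distrib,
    ← Finset.mul_sum, ← Finset.mul_sum]
  ring

theorem pos_minor (b κ : ℕ) :
    Pos (lam true 1 0 * lam true b κ - lam true b 0 * lam true 1 κ) := by
  rw [minor_eq]
  exact (Pos.sum _ _ fun i _ => pos_minorM i κ).X_mul

/-- The swap inequality in the model `sw = true`. -/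
theorem swap_pos (b : ℕ) (W : List ℕ) : ∀ (Γ : List ℕ) (κ : ℕ),
    Pos (P true κ (Γ ++ 1 :: b :: W) - P true κ (Γ ++ b :: 1 :: W)) := by
  intro Γ
  induction Γ with
  | nil =>
    intro κ
    rw [List.nil_append, List.nil_append, swap_formula]
    exact (pos_minor b κ).mul (pos_P _ _ _)
  | cons c Γ ih =>
    intro κ
    rw [List.cons_append, List.cons_append, peel, peel true c κ (Γ ++ b :: 1 :: W)]
    have : P true κ (Γ ++ 1 :: b :: W) + ∑ j ∈ Finset.range κ,
        lam true c j * P true (κ + 1 - j) (Γ ++ 1 :: b :: W) -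
        (P true κ (Γ ++ b :: 1 :: W) + ∑ j ∈ Finset.range κ,
        lam true c j * P true (κ + 1 - j) (Γ ++ b :: 1 :: W)) =
        (P true κ (Γ ++ 1 :: b :: W) - P true κ (Γ ++ b :: 1 :: W)) +
        ∑ j ∈ Finset.range κ, lam true c j * (P true (κ + 1 - j) (Γ ++ 1 :: b :: W) -
          P true (κ + 1 - j) (Γ ++ b :: 1 :: W)) := by
      have h : ∑ j ∈ Finset.range κ, lam true c j * (P true (κ + 1 - j) (Γ ++ 1 :: b :: W) -
          P true (κ + 1 - j) (Γ ++ b :: 1 :: W)) =
          ∑ j ∈ Finset.range κ, lam true c j * P true (κ + 1 - j) (Γ ++ 1 :: b :: W) -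
          ∑ j ∈ Finset.range κ, lam true c j * P true (κ + 1 - j) (Γ ++ b :: 1 :: W) := by
        rw [← Finset.sum_sub_distrib]
        apply Finset.sum_congr rfl
        intro j _
        ring
      rw [h]
      ring
    rw [this]
    apply (ih κ).add
    apply Pos.sum
    intro j _
    exact (pos_lam _ _ _).mul (ih _)

end Pool.Agent.H26.T3
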