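import Pool.Agent.H26.T3.Defs

set_option autoImplicit false

/-!
The peeling identity and the swap formula.
-/

namespace Pool.Agent.H26.T3

open PowerSeries

/-- `lam c κ = P (κ+1) [c] - P κ [c]`. -/
noncomputable def lam (sw : Bool) (c κ : ℕ) : PowerSeries ℤ :=
  P sw (κ + 1) [c] - P sw κ [c]

/-- The inner splittings of a letter. -/
def lsp (sw : Bool) (c : ℕ) : List (List ℕ) :=
  (List.range c).map (fun y => if sw then [c - 1 - y, y + 2] else [y + 2, c - 1 - y])

lemma lam_eq (sw : Bool) (c κ : ℕ) :
    lam sw c κ = X * ((lsp sw c).map (fun m => P sw (κ + 1) m)).sum := by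
  unfold lam lsp
  rw [P_succ]
  simp only [wsplits, List.map_nil, List.append_nil, List.map_map]
  rw [add_sub_cancel_left]
  congr 3
  funext y
  simp [P_nil]

lemma pos_lam (sw : Bool) (c κ : ℕ) : Pos (lam sw c κ) := by
  rw [lam_eq]
  exact (Pos.list_sum _ _ fun i _ => pos_P _ _ _).X_mul

lemma lam_zero (sw : Bool) (κ : ℕ) : lam sw 0 κ = 0 := by
  rw [lam_eq]
  simp [lsp]

lemma P_cons_succ (sw : Bool) (c κ : ℕ) (W : List ℕ) :
    P sw (κ + 1) (c :: W) = P sw κ (c :: W) + lam sw c κ * P sw 1 W +
      X * ((wsplits sw W).map (fun mp => P sw (κ + 1) (c :: mp.1) * P sw 1 mp.2)).sum := by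
  rw [P_succ, lam_eq, add_assoc]
  congr 1
  simp only [wsplits, List.map_append, List.sum_append, List.map_map]
  rw [mul_add, mul_assoc]
  congr 1
  congr 1
  rw [lsp, List.map_map, ← List.sum_map_mul_right]
  rfl

/-- A solution of the linear recursion is determined by its values for `κ = 0`. -/
lemma uniq (sw : Bool) (D : ℕ → List ℕ → PowerSeries ℤ) (h0 : ∀ W, D 0 W = 0)
    (h1 : ∀ κ W, D (κ + 1) W = D κ W +
      X * ((wsplits sw W).map (fun mp => D (κ + 1) mp.1 * P sw 1 mp.2)).sum) :
    ∀ κ W, D κ W = 0 := by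
  have key : ∀ n κ W, coeff n (D κ W) = 0 := by
    intro n
    induction n using Nat.strong_induction_on with
    | _ n ih =>
      intro κ
      induction κ with
      | zero => intro W; rw [h0]; simp
      | succ κ ihκ =>
        intro W
        rw [h1, map_add, ihκ, zero_add]
        cases n with
        | zero => simp
        | succ n =>
          rw [coeff_succ_X_mul, map_list_sum, List.map_map]
          apply List.sum_eq_zero
          intro x hx
          rw [List.mem_map] at hx
          obtain ⟨mp, _, rfl⟩ := hx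
          simp only [Function.comp_apply]
          rw [coeff_mul]
          apply Finset.sum_eq_zero
          intro p hp
          have := Finset.HasAntidiagonal.mem_antidiagonal.1 hp
          rw [ih p.1 (by omega), zero_mul]
  intro κ W
  ext n
  rw [key]
  simp

lemma sum_map_sub' {α : Type*} (l : List α) (f g : α → PowerSeries ℤ) :
    (l.map (fun x => f x - g x)).sum = (l.map f).sum - (l.map g).sum := by
  induction l with
  | nil => simp
  | cons a l ih => simp only [List.map_cons, List.sum_cons, ih]; ring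

lemma sum_map_add' {α : Type*} (l : List α) (f g : α → PowerSeries ℤ) :
    (l.map (fun x => f x + g x)).sum = (l.map f).sum + (l.map g).sum := by
  induction l with
  | nil => simp
  | cons a l ih => simp only [List.map_cons, List.sum_cons, ih]; ring

lemma sum_map_finsum {α : Type*} (l : List α) (s : Finset ℕ) (a : ℕ → PowerSeries ℤ)
    (f : ℕ → α → PowerSeries ℤ) :
    (l.map (fun x => ∑ j ∈ s, a j * f j x)).sum = ∑ j ∈ s, a j * (l.map (f j)).sum := by
  induction l with
  | nil => simp
  | cons b l ih =>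
    simp only [List.map_cons, List.sum_cons, ih, mul_add, Finset.sum_add_distrib]

lemma P_diff (sw : Bool) (κ : ℕ) (W : List ℕ) :
    X * ((wsplits sw W).map (fun mp => P sw (κ + 1) mp.1 * P sw 1 mp.2)).sum =
      P sw (κ + 1) W - P sw κ W := by
  rw [P_succ sw κ W]; ring

/-- Peeling off the first letter. -/
theorem peel (sw : Bool) (c κ : ℕ) (W : List ℕ) :
    P sw κ (c :: W) = P sw κ W +
      ∑ j ∈ Finset.range κ, lam sw c j * P sw (κ + 1 - j) W := by
  have h := uniq sw (fun κ W => P sw κ (c :: W) - (P sw κ W +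
      ∑ j ∈ Finset.range κ, lam sw c j * P sw (κ + 1 - j) W)) ?_ ?_ κ W
  · exact sub_eq_zero.1 h
  · intro W
    simp [P_zero]
  · intro κ W
    have e1 : X * ((wsplits sw W).map (fun mp => (P sw (κ + 1) (c :: mp.1) -
        (P sw (κ + 1) mp.1 + ∑ j ∈ Finset.range (κ + 1),
          lam sw c j * P sw (κ + 1 + 1 - j) mp.1)) * P sw 1 mp.2)).sum =
        X * ((wsplits sw W).map (fun mp => P sw (κ + 1) (c :: mp.1) * P sw 1 mp.2)).sum
        - (P sw (κ + 1) W - P sw κ W)
        - ∑ j ∈ Finset.range (κ + 1), lam sw c j *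
          (P sw (κ + 1 + 1 - j) W - P sw (κ + 1 - j) W) := by
      have e2 : ∀ mp : List ℕ × List ℕ, (P sw (κ + 1) (c :: mp.1) -
        (P sw (κ + 1) mp.1 + ∑ j ∈ Finset.range (κ + 1),
          lam sw c j * P sw (κ + 1 + 1 - j) mp.1)) * P sw 1 mp.2 =
          (P sw (κ + 1) (c :: mp.1) * P sw 1 mp.2 - P sw (κ + 1) mp.1 * P sw 1 mp.2)
          - ∑ j ∈ Finset.range (κ + 1),
            lam sw c j * (P sw (κ + 1 + 1 - j) mp.1 * P sw 1 mp.2) := by
        intro mp
        rw [sub_mul, add_mul, Finset.sum_mul]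
        have : ∑ i ∈ Finset.range (κ + 1), lam sw c i * P sw (κ + 1 + 1 - i) mp.1 * P sw 1 mp.2
          = ∑ j ∈ Finset.range (κ + 1),
            lam sw c j * (P sw (κ + 1 + 1 - j) mp.1 * P sw 1 mp.2) := by
          apply Finset.sum_congr rfl
          intro i _
          ring
        rw [this]
        ring
      rw [List.map_congr_left (fun mp _ => e2 mp), sum_map_sub', sum_map_sub', mul_sub, mul_sub,
        P_diff, sum_map_finsum, Finset.mul_sum]
      congr 1
      apply Finset.sum_congr rfl
      intro j hj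
      rw [Finset.mem_range] at hj
      have h3 := P_diff sw (κ + 1 - j) W
      have h4 : κ + 1 - j + 1 = κ + 1 + 1 - j := by omega
      rw [h4] at h3
      rw [← h3]
      ring
    rw [e1, P_cons_succ, Finset.sum_range_succ, Finset.sum_range_succ]
    have h5 : κ + 1 + 1 - κ = 2 := by omega
    have h6 : κ + 1 - κ = 1 := by omega
    rw [h5, h6]
    have h7 : ∑ j ∈ Finset.range κ, lam sw c j * (P sw (κ + 1 + 1 - j) W - P sw (κ + 1 - j) W)
        = ∑ j ∈ Finset.range κ, lam sw c j * P sw (κ + 1 + 1 - j) W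
          - ∑ j ∈ Finset.range κ, lam sw c j * P sw (κ + 1 - j) W := by
      rw [← Finset.sum_sub_distrib]
      apply Finset.sum_congr rfl
      intro j _
      ring
    rw [h7]
    ring

lemma P_zero_cons (sw : Bool) (κ : ℕ) (W : List ℕ) : P sw κ (0 :: W) = P sw κ W := by
  rw [peel]
  simp [lam_zero]

lemma double_sum (κ : ℕ) (a b q : ℕ → PowerSeries ℤ) :
    ∑ j ∈ Finset.range κ, a j * ∑ i ∈ Finset.range (κ + 1 - j), b i * q (i + j) =
    ∑ j ∈ Finset.range (κ + 1), ∑ i ∈ Finset.range (κ + 1 - j), a j * b i * q (i + j)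
      - a κ * b 0 * q κ := by
  rw [Finset.sum_range_succ]
  have : κ + 1 - κ = 1 := by omega
  rw [this, Finset.sum_range_one, zero_add, add_sub_cancel_right]
  apply Finset.sum_congr rfl
  intro j _
  rw [Finset.mul_sum]
  apply Finset.sum_congr rfl
  intro i _
  ring

/-- The swap formula. -/
theorem swap_formula (sw : Bool) (x y κ : ℕ) (W : List ℕ) :
    P sw κ (x :: y :: W) - P sw κ (y :: x :: W) =
      (lam sw x 0 * lam sw y κ - lam sw y 0 * lam sw x κ) * P sw 2 W := by
  have e : ∀ x y : ℕ, P sw κ (x :: y :: W) = P sw κ W +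
      ∑ i ∈ Finset.range κ, lam sw y i * P sw (κ + 1 - i) W +
      ∑ j ∈ Finset.range κ, lam sw x j * P sw (κ + 1 - j) W +
      (∑ j ∈ Finset.range (κ + 1), ∑ i ∈ Finset.range (κ + 1 - j),
        lam sw x j * lam sw y i * P sw (κ + 2 - (i + j)) W
      - lam sw x κ * lam sw y 0 * P sw 2 W) := by
    intro x y
    rw [peel sw x κ (y :: W), peel sw y κ W]
    have h := double_sum κ (lam sw x) (lam sw y) (fun s => P sw (κ + 2 - s) W)
    have h2 : κ + 2 - κ = 2 := by omega
    simp only [h2] at h
    rw [← h, add_assoc _ (∑ j ∈ Finset.range κ, lam sw x j * P sw (κ + 1 - j) W) _,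
      ← Finset.sum_add_distrib]
    congr 1
    apply Finset.sum_congr rfl
    intro j hj
    rw [Finset.mem_range] at hj
    rw [peel sw y (κ + 1 - j) W, mul_add]
    congr 2
    apply Finset.sum_congr rfl
    intro i hi
    rw [Finset.mem_range] at hi
    congr 2
    omega
  rw [e x y, e y x]
  have hs : ∑ j ∈ Finset.range (κ + 1), ∑ i ∈ Finset.range (κ + 1 - j),
        lam sw x j * lam sw y i * P sw (κ + 2 - (i + j)) W =
      ∑ j ∈ Finset.range (κ + 1), ∑ i ∈ Finset.range (κ + 1 - j),
        lam sw y j * lam sw x i * P sw (κ + 2 - (i + j)) W := by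
    rw [Finset.sum_comm' (t' := Finset.range (κ + 1)) (s' := fun i => Finset.range (κ + 1 - i))]
    · apply Finset.sum_congr rfl
      intro i _
      apply Finset.sum_congr rfl
      intro j _
      rw [add_comm i j]
      ring
    · intro j i
      simp only [Finset.mem_range]
      omega
  rw [hs]
  ring

end Pool.Agent.H26.T3
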