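import Pool.Agent.H26.T3.Compare

set_option autoImplicit false

/-!
Strictness of the comparison.
-/

namespace Pool.Agent.H26.T3

open PowerSeries

lemma pos_sub_trans {a b c : PowerSeries ℤ} (h1 : Pos (a - b)) (h2 : Pos (b - c)) :
    Pos (a - c) := by
  have : a - c = (a - b) + (b - c) := by ring
  rw [this]
  exact h1.add h2

lemma P_mono (sw : Bool) (κ : ℕ) (W : List ℕ) : Pos (P sw (κ + 1) W - P sw κ W) := by
  rw [P_succ, add_sub_cancel_left]
  exact (Pos.list_sum _ _ fun mp _ => (pos_P _ _ _).mul (pos_P _ _ _)).X_mul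

lemma strict_aux : Pos (P true 1 [1] - P false 1 [1] -
    X ^ 5 * (P true 1 [2] * P true 1 [2] * P true 3 [2])) := by
  have a0 : P false 1 [0] = 1 := by rw [P_one]; simp [wsplits]
  have a1 : P true 1 [1] = 1 + X * P true 1 [2] := by
    rw [P_one]
    simp [wsplits, List.range_succ, P_nil, P_zero_cons]
  have a2 : P false 1 [1] = 1 + X * P false 1 [2, 0] := by
    rw [P_one]
    simp [wsplits, List.range_succ, P_nil]
  have a3 : P true 1 [2] = 1 + X * (P true 1 [1, 2] + P true 1 [3]) := by
    rw [P_one]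
    simp [wsplits, List.range_succ, P_nil, P_zero_cons]
  have a4 : P false 1 [2, 0] = 1 + X * (P false 1 [2, 1] + P false 1 [3, 0]) := by
    rw [P_one]
    simp [wsplits, List.range_succ, P_nil, a0]
  have b1 : P true 1 [1, 2] - P true 1 [2, 1] =
      lam true 1 0 * lam true 2 1 - lam true 2 0 * lam true 1 1 := by
    rw [swap_formula, P_nil, mul_one]
  have b2 : lam true 1 0 * lam true 2 1 - lam true 2 0 * lam true 1 1 =
      X * (P true 1 [2] * M 1 1 - P true 2 [2] * M 1 0) := by
    rw [minor_eq, Finset.sum_range_succ, Finset.sum_range_one]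
    have m0 : ∀ κ, M 0 κ = X * P true (κ + 1) [2] := by
      intro κ; rw [M_eq]; simp
    rw [m0, m0]
    ring
  have m0 : ∀ κ, M 0 κ = X * P true (κ + 1) [2] := by
    intro κ; rw [M_eq]; simp
  have m10 : M 1 0 = X * (P true 1 [3] + M 0 0 * P true 2 [2]) := by
    rw [M_eq]; simp
  have m11 : M 1 1 = X * (P true 2 [3] + (M 0 0 * P true 3 [2] + M 0 1 * P true 2 [2])) := by
    rw [M_eq]; simp [Finset.sum_range_succ]
  have b3 : P true 1 [2] * M 1 1 - P true 2 [2] * M 1 0 =
      X * ((P true 1 [2] * P true 2 [3] - P true 2 [2] * P true 1 [3]) +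
        X * (P true 1 [2] * P true 1 [2] * P true 3 [2])) := by
    rw [m10, m11, m0, m0]
    ring
  have c1 : Pos (P true 1 [2] * P true 2 [3] - P true 2 [2] * P true 1 [3]) :=
    pos_of_nn fun n => step_aux n (fun b κ => minor_nn n b κ) 1 1
  have c2 : Pos (P true 1 [2, 1] - P false 1 [2, 1]) := cmp_pos _
  have c3 : Pos (P true 1 [3] - P false 1 [3, 0]) := by
    have h := cmp_pos [3, 0]
    have h' : P true 1 [3, 0] = P true 1 [3] := P_append_zero true [] [3] 1
    rwa [h'] at h
  have e : P true 1 [1] - P false 1 [1] -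
      X ^ 5 * (P true 1 [2] * P true 1 [2] * P true 3 [2]) =
      X * (X * ((P true 1 [2, 1] - P false 1 [2, 1]) + (P true 1 [3] - P false 1 [3, 0]) +
        X * (X * (P true 1 [2] * P true 2 [3] - P true 2 [2] * P true 1 [3])))) := by
    have d1 : P true 1 [1, 2] = P true 1 [2, 1] + X * (X *
        ((P true 1 [2] * P true 2 [3] - P true 2 [2] * P true 1 [3]) +
        X * (P true 1 [2] * P true 1 [2] * P true 3 [2]))) := by
      rw [← b3, ← b2, ← b1]
      ring
    have d2 : P true 1 [1] - P false 1 [1] = X * (X * (P true 1 [1, 2] + P true 1 [3] -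
        (P false 1 [2, 1] + P false 1 [3, 0]))) := by
      rw [a1, a2]
      rw [a4]
      have : P true 1 [2] = 1 + X * (P true 1 [1, 2] + P true 1 [3]) := a3
      linear_combination X * this
    rw [d2, d1]
    ring
  rw [e]
  exact ((c2.add c3).add (c1.X_mul.X_mul)).X_mul.X_mul

theorem strict (n : ℕ) (hn : 5 ≤ n) : pc false n 1 [1] < pc true n 1 [1] := by
  have h := strict_aux n
  obtain ⟨m, rfl⟩ := Nat.exists_eq_add_of_le hn
  rw [map_sub, map_sub, coeff_P, coeff_P, add_comm 5 m, coeff_X_pow_mul] at h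
  have h1 : 1 ≤ coeff m (P true 1 [2] * P true 1 [2] * P true 3 [2]) := by
    rw [coeff_mul]
    have h4 : coeff 0 (P true 1 [2] * P true 1 [2]) * coeff m (P true 3 [2]) ≤
        ∑ p ∈ Finset.HasAntidiagonal.antidiagonal m,
          coeff p.1 (P true 1 [2] * P true 1 [2]) * coeff p.2 (P true 3 [2]) := by
      apply Finset.single_le_sum
        (f := fun p : ℕ × ℕ => coeff p.1 (P true 1 [2] * P true 1 [2]) *
          coeff p.2 (P true 3 [2]))
        (a := (0, m))
      · intro p _
        exact mul_nonneg (((pos_P _ _ _).mul (pos_P _ _ _)) _) (pos_P _ _ _ _)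
      · rw [Finset.HasAntidiagonal.mem_antidiagonal]; simp
    have h5 : coeff 0 (P true 1 [2] * P true 1 [2]) = 1 := by
      rw [coeff_zero_eq_constantCoeff_apply, map_mul]
      have : constantCoeff (P true 1 [2]) = 1 := by
        rw [← coeff_zero_eq_constantCoeff_apply, coeff_P]; simp [pc]
      rw [this, one_mul]
    have h6 : 1 ≤ coeff m (P true 3 [2]) := by
      have h7 := coeff_ge_one true m [2] ⟨2, by simp, by omega⟩
      have h8 := pos_sub_trans (P_mono true 2 [2]) (P_mono true 1 [2]) m
      rw [map_sub] at h8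
      linarith
    rw [h5, one_mul] at h4
    exact h6.trans h4
  have h2 : (pc false (m + 5) 1 [1] : ℤ) < (pc true (m + 5) 1 [1] : ℤ) := by linarith
  rw [add_comm 5 m]
  exact_mod_cast h2

end Pool.Agent.H26.T3
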